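import Mathlib

/-!
# Stable models of uni-rule programs with internally delocalized odd cycles

A finite ground normal program in which every atom is the head of at most one rule, and in which
every odd cycle of the atom dependency graph has an internal delocalizing triple, has a stable
model.
-/

namespace Pool.Agent.Results.MP_d24a2a_lc.StableUniRule

/-- A ground normal rule `head ← pos, not neg`. -/
structure Rule (A : Type) where
  /-- the head -/
  head : A
  /-- the positive body -/
  pos : Finset A
  /-- the negative body -/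
  neg : Finset A

variable {A : Type}

/-- Every atom is the head of at most one rule. -/
def UniRule (P : Finset (Rule A)) : Prop :=
  ∀ r ∈ P, ∀ s ∈ P, r.head = s.head → r = s

/-- `N` is a model of the reduct `P^M`: the rules with a negative atom in `M` are deleted and the
negative bodies of the other rules are deleted. -/
def ModelOfReduct (P : Finset (Rule A)) (M N : Set A) : Prop :=
  ∀ r ∈ P, (∀ b ∈ r.neg, b ∉ M) → (∀ a ∈ r.pos, a ∈ N) → r.head ∈ N

/-- `M` is a stable model of `P`: the least model of the reduct `P^M`. -/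
def Stable (P : Finset (Rule A)) (M : Set A) : Prop :=
  IsLeast {N : Set A | ModelOfReduct P M N} M

/-- Arcs of the atom dependency graph from `u` to `v`: positive ones for `σ = true`, negative
ones for `σ = false`. -/
def Arc (P : Finset (Rule A)) (σ : Bool) (u v : A) : Prop :=
  ∃ r ∈ P, r.head = v ∧ u ∈ (if σ = true then r.pos else r.neg)

/-- An elementary directed cycle of the atom dependency graph with `n + 1` different vertices and
its signed arcs; the arc `i` goes from vertex `i` to vertex `i + 1` (modulo `n + 1`). -/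
structure Cycle (P : Finset (Rule A)) where
  /-- the length is `n + 1` -/
  n : ℕ
  /-- the vertices in their order -/
  vert : Fin (n + 1) → A
  /-- the signs of the arcs -/
  sign : Fin (n + 1) → Bool
  inj : Function.Injective vert
  arc : ∀ i, Arc P (sign i) (vert i) (vert (i + 1))

/-- The cycle has an odd number of negative arcs. -/
def Cycle.IsOdd {P : Finset (Rule A)} (C : Cycle P) : Prop :=
  Odd (Finset.univ.filter (fun i => C.sign i = false)).card

/-- The signed arc `(u v, σ)` belongs to the cycle. -/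
def Cycle.HasArc {P : Finset (Rule A)} (C : Cycle P) (σ : Bool) (u v : A) : Prop :=
  ∃ i, C.sign i = σ ∧ C.vert i = u ∧ C.vert (i + 1) = v

/-- The cycle has an internal delocalizing triple `(u, v₁, v₂)`. -/
def Cycle.HasInternalTriple {P : Finset (Rule A)} (C : Cycle P) : Prop :=
  ∃ u ∈ Set.range C.vert, ∃ v₁ ∈ Set.range C.vert, ∃ v₂ ∈ Set.range C.vert, v₁ ≠ v₂ ∧
    Arc P true u v₁ ∧ ¬ C.HasArc true u v₁ ∧ Arc P false u v₂ ∧ ¬ C.HasArc false u v₂

/-! ## The proof -/

/-- the body of the rule of `v` is true in `x` -/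
def Supp (P : Finset (Rule A)) (x : Set A) (v : A) : Prop :=
  ∃ r ∈ P, r.head = v ∧ (∀ a ∈ r.pos, a ∈ x) ∧ (∀ b ∈ r.neg, b ∉ x)

/-- `c` is a reason for `w` to be false in `x` -/
def Cert (P : Finset (Rule A)) (x : Set A) (w c : A) : Prop :=
  ∃ r ∈ P, r.head = w ∧ ((c ∈ r.pos ∧ c ∉ x) ∨ (c ∈ r.neg ∧ c ∈ x))

inductive Stage (P : Finset (Rule A)) (x : Set A) (S : Finset A) (v : A) : ℕ → A → Prop
  | base (n : ℕ) : Stage P x S v n v
  | one (n : ℕ) (w c : A) (r : Rule A) (hw : w ∈ x) (hS : w ∉ S) (hr : r ∈ P)
      (hh : r.head = w) (hc : c ∈ r.pos ∨ c ∈ r.neg) (h : Stage P x S v n c) :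
      Stage P x S v (n + 1) w
  | zero (n : ℕ) (w : A) (r : Rule A) (hw : w ∉ x) (hS : w ∉ S) (hr : r ∈ P)
      (hh : r.head = w) (h : ∀ c, Cert P x w c → Stage P x S v n c) :
      Stage P x S v (n + 1) w

theorem Stage.mono {P : Finset (Rule A)} {x : Set A} {S : Finset A} {v : A} {n : ℕ} {w : A}
    (h : Stage P x S v n w) : ∀ m, n ≤ m → Stage P x S v m w := by
  induction h with
  | base n => intro m _; exact Stage.base m
  | one n w c r hw hS hr hh hc h ih =>
    intro m hm
    obtain ⟨k, rfl⟩ : ∃ k, m = k + 1 := ⟨m - 1, by omega⟩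
    exact Stage.one k w c r hw hS hr hh hc (ih k (by omega))
  | zero n w r hw hS hr hh h ih =>
    intro m hm
    obtain ⟨k, rfl⟩ : ∃ k, m = k + 1 := ⟨m - 1, by omega⟩
    exact Stage.zero k w r hw hS hr hh (fun c hc => ih c hc k (by omega))

theorem Stage.notMem {P : Finset (Rule A)} {x : Set A} {S : Finset A} {v : A} (hv : v ∉ S)
    {n : ℕ} {w : A} (h : Stage P x S v n w) : w ∉ S := by
  cases h with
  | base n => exact hv
  | one n w c r hw hS hr hh hc h => exact hS
  | zero n w r hw hS hr hh h => exact hS

theorem parity (f : ℕ → Prop) (m : ℕ) [DecidablePred f] :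
    (∑ i ∈ Finset.range m, (if (f i ↔ f (i + 1)) then 0 else 1)) % 2 =
      if (f 0 ↔ f m) then 0 else 1 := by
  induction m with
  | zero => simp
  | succ m ih =>
    rw [Finset.sum_range_succ, Nat.add_mod, ih]
    by_cases h0 : f 0 <;> by_cases h1 : f m <;> by_cases h2 : f (m + 1) <;> simp [h0, h1, h2]

/-- the set `H` of consistent arcs from lower to higher ranks -/
def HArc (P : Finset (Rule A)) (x : Set A) (S : Finset A) (v : A) (rk : A → ℕ) (a b : A) : Prop :=
  b ≠ v ∧ b ∉ S ∧ a ∉ S ∧ rk a < rk b ∧ ∃ σ : Bool, Arc P σ a b ∧ (σ = true ↔ (a ∈ x ↔ b ∈ x))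

inductive Reach (H : A → A → Prop) (v : A) : ℕ → A → Prop
  | base : Reach H v 0 v
  | step (m : ℕ) (a b : A) (h : Reach H v m a) (hb : H a b) : Reach H v (m + 1) b

theorem exists_path (H : A → A → Prop) (v : A) (d : A → ℕ)
    (hd1 : ∀ b m, Reach H v m b → d b ≤ m) (hd2 : ∀ b m, Reach H v m b → Reach H v (d b) b) :
    ∀ (m : ℕ) (b : A), Reach H v m b → d b = m →
      ∃ q : ℕ → A, q 0 = v ∧ q m = b ∧ (∀ i, i < m → H (q i) (q (i + 1))) ∧
        ∀ i, i ≤ m → d (q i) = i := by
  intro m
  induction m with
  | zero =>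
    intro b hb hd
    cases hb
    refine ⟨fun _ => v, rfl, rfl, fun i hi => absurd hi (by omega), ?_⟩
    intro i hi
    have : i = 0 := by omega
    subst this
    exact hd
  | succ m ih =>
    intro b hb hd
    cases hb with
    | step m a b h hb' =>
      have h1 : d a ≤ m := hd1 a m h
      have h2 : d b ≤ d a + 1 := hd1 b _ (Reach.step _ a b (hd2 a m h) hb')
      have h3 : d a = m := by omega
      obtain ⟨q, q0, qm, qH, qd⟩ := ih a h h3
      refine ⟨fun i => if i ≤ m then q i else b, by simp [q0], by simp, ?_, ?_⟩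
      · intro i hi
        by_cases h4 : i + 1 ≤ m
        · have h5 : i ≤ m := by omega
          simp only [h4, h5, if_true]
          exact qH i (by omega)
        · have h5 : i = m := by omega
          subst h5
          simp only [le_refl, if_true, h4, if_false]
          rw [qm]
          exact hb'
      · intro i hi
        by_cases h4 : i ≤ m
        · simp only [h4, if_true]
          exact qd i h4
        · have h5 : i = m + 1 := by omega
          subst h5
          simp only [h4, if_false]
          exact hd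

/-- The contradiction from an odd cycle. -/
theorem no_cycle (P : Finset (Rule A)) (hU : UniRule P)
    (hC : ∀ C : Cycle P, C.IsOdd → C.HasInternalTriple) (S : Finset A) (x : Set A) (v : A)
    (hvS : v ∉ S) (hvx : v ∉ x) (hx : ∀ w, w ∉ S → w ≠ v → (w ∈ x ↔ Supp P x w))
    (hall : ∀ w, w ∉ S → ∃ n, Stage P x S v n w) (r : Rule A) (hr : r ∈ P) (hrv : r.head = v)
    (hpos : ∀ a ∈ r.pos, a ∈ x) (hneg : ∀ b ∈ r.neg, b ∉ x) (w : A)
    (hw : w ∈ r.pos ∨ w ∈ r.neg) (hwS : w ∉ S) : False := by
  classical
  -- ranks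
  let rk : A → ℕ := fun b => sInf {n | Stage P x S v n b}
  have rk_stage : ∀ b, b ∉ S → Stage P x S v (rk b) b := fun b hb => Nat.sInf_mem (hall b hb)
  have rk_le : ∀ b n, Stage P x S v n b → rk b ≤ n := fun b n h => Nat.sInf_le h
  -- certificates are arcs
  have certH : ∀ b c, b ∉ S → b ≠ v → b ∉ x → Cert P x b c → HArc P x S v rk c b := by
    intro b c hbS hbv hbx hc
    have h := rk_stage b hbS
    generalize hn : rk b = n at h
    cases h with
    | base n => exact absurd rfl hbv
    | one n w c' r' hw' hS' hr' hh' hc' h' => exact absurd hw' hbx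
    | zero n w r' hw' hS' hr' hh' h' =>
      have h1 := h' c hc
      have h2 : rk c ≤ n := rk_le c n h1
      refine ⟨hbv, hbS, Stage.notMem hvS h1, by omega, ?_⟩
      obtain ⟨r'', hr'', hh'', hc''⟩ := hc
      rcases hc'' with ⟨h3, h4⟩ | ⟨h3, h4⟩
      · exact ⟨true, ⟨r'', hr'', hh'', by simpa using h3⟩, by simp [h4, hbx]⟩
      · exact ⟨false, ⟨r'', hr'', hh'', by simpa using h3⟩, by simp [h4, hbx]⟩
  have existsH : ∀ b, b ∉ S → b ≠ v → ∃ c, HArc P x S v rk c b := by
    intro b hbS hbv
    by_cases hbx : b ∈ x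
    · have h := rk_stage b hbS
      generalize hn : rk b = n at h
      cases h with
      | base n => exact absurd rfl hbv
      | one n w c' r' hw' hS' hr' hh' hc' h' =>
        refine ⟨c', hbv, hbS, Stage.notMem hvS h', by have := rk_le c' n h'; omega, ?_⟩
        obtain ⟨r'', hr'', hh'', hp, hn'⟩ := (hx b hbS hbv).1 hbx
        have hrr : r' = r'' := hU r' hr' r'' hr'' (by rw [hh', hh''])
        subst hrr
        rcases hc' with h3 | h3
        · exact ⟨true, ⟨r', hr', hh', by simpa using h3⟩, by simp [hp c' h3, hbx]⟩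
        · exact ⟨false, ⟨r', hr', hh', by simpa using h3⟩, by simp [hn' c' h3, hbx]⟩
      | zero n w r' hw' hS' hr' hh' h' => exact absurd hbx hw'
    · have h := rk_stage b hbS
      generalize hn : rk b = n at h
      cases h with
      | base n => exact absurd rfl hbv
      | one n w c' r' hw' hS' hr' hh' hc' h' => exact absurd hw' hbx
      | zero n w r' hw' hS' hr' hh' h' =>
        have hns : ¬ Supp P x b := fun h => hbx ((hx b hbS hbv).2 h)
        have : ∃ c, Cert P x b c := by
          by_contra hcon
          push Not at hcon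
          apply hns
          refine ⟨r', hr', hh', ?_, ?_⟩
          · intro a ha
            by_contra hax
            exact hcon a ⟨r', hr', hh', Or.inl ⟨ha, hax⟩⟩
          · intro a ha hax
            exact hcon a ⟨r', hr', hh', Or.inr ⟨ha, hax⟩⟩
        obtain ⟨c, hc⟩ := this
        exact ⟨c, certH b c hbS hbv hbx hc⟩
  -- reachability
  have reach : ∀ k b, b ∉ S → rk b = k → ∃ m, Reach (HArc P x S v rk) v m b := by
    intro k
    induction k using Nat.strong_induction_on with
    | _ k ih =>
      intro b hbS hbk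
      by_cases hbv : b = v
      · subst hbv
        exact ⟨0, Reach.base⟩
      · obtain ⟨c, hc⟩ := existsH b hbS hbv
        obtain ⟨m, hm⟩ := ih (rk c) (by have := hc.2.2.2.1; omega) c hc.2.2.1 rfl
        exact ⟨m + 1, Reach.step m c b hm hc⟩
  let d : A → ℕ := fun b => sInf {m | Reach (HArc P x S v rk) v m b}
  have hd1 : ∀ b m, Reach (HArc P x S v rk) v m b → d b ≤ m := fun b m h => Nat.sInf_le h
  have hd2 : ∀ b m, Reach (HArc P x S v rk) v m b → Reach (HArc P x S v rk) v (d b) b :=
    fun b m h => Nat.sInf_mem (s := {m | Reach (HArc P x S v rk) v m b}) ⟨m, h⟩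
  obtain ⟨m0, hm0⟩ := reach (rk w) w hwS rfl
  obtain ⟨q, q0, qm, qH, qd⟩ := exists_path (HArc P x S v rk) v d hd1 hd2 (d w) w (hd2 w m0 hm0) rfl
  generalize hm : d w = m at *
  -- the members of the path
  have qS : ∀ i, i ≤ m → q i ∉ S := by
    intro i hi
    rcases Nat.eq_zero_or_pos i with h | h
    · subst h; rw [q0]; exact hvS
    · obtain ⟨j, rfl⟩ : ∃ j, i = j + 1 := ⟨i - 1, by omega⟩
      exact (qH j (by omega)).2.1
  have qrk : ∀ j i, i < j → j ≤ m → rk (q i) < rk (q j) := by
    intro j
    induction j with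
    | zero => intro i hi; omega
    | succ j ih =>
      intro i hi hj
      have h1 := (qH j (by omega)).2.2.2.1
      rcases Nat.lt_or_ge i j with h | h
      · exact lt_trans (ih i h (by omega)) h1
      · have : i = j := by omega
        subst this
        exact h1
  have qlt : ∀ i j, i ≤ m → j ≤ m → rk (q i) < rk (q j) → i < j := by
    intro i j hi hj h
    by_contra hcon
    rcases Nat.lt_or_ge j i with h1 | h1
    · have := qrk i j h1 hi; omega
    · have : i = j := by omega
      subst this; omega
  -- the cycle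
  have valsucc : ∀ i : Fin (m + 1), (i : ℕ) < m → ((i + 1 : Fin (m + 1)) : ℕ) = i + 1 := by
    intro i hi
    rw [Fin.val_add_one_of_lt]
    rw [Fin.lt_def]
    simpa using hi
  have vallast : ∀ i : Fin (m + 1), (i : ℕ) = m → ((i + 1 : Fin (m + 1)) : ℕ) = 0 := by
    intro i hi
    have : i = Fin.last m := Fin.ext (by simpa using hi)
    subst this
    simp
  let sg : ℕ → Bool := fun i => if i < m then decide (q i ∈ x ↔ q (i + 1) ∈ x) else decide (w ∈ x)
  let C : Cycle P :=
    { n := m
      vert := fun i => q i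
      sign := fun i => sg i
      inj := by
        intro i j hij
        have h1 := qd i (by omega)
        have h2 := qd j (by omega)
        have hij' : q i = q j := hij
        rw [hij'] at h1
        exact Fin.ext (by omega)
      arc := by
        intro i
        by_cases hi : (i : ℕ) < m
        · have h1 : q ((i + 1 : Fin (m + 1)) : ℕ) = q ((i : ℕ) + 1) := by
            rw [valsucc i hi]
          obtain ⟨_, _, _, _, σ, hσ, hσ2⟩ := qH i hi
          have h2 : sg i = σ := by
            simp only [sg, hi, if_true]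
            rcases σ with _ | _
            · simp only [Bool.false_eq_true, false_iff] at hσ2
              simp [hσ2]
            · simp only [true_iff] at hσ2
              simp [hσ2]
          rw [h1, h2]
          exact hσ
        · have hi' : (i : ℕ) = m := by omega
          have h1 : q ((i + 1 : Fin (m + 1)) : ℕ) = v := by
            rw [vallast i hi', q0]
          have h3 : q (i : ℕ) = w := by
            rw [hi', qm]
          have h2 : sg i = decide (w ∈ x) := by
            simp only [sg, hi, if_false]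
          rw [h1, h2, h3]
          rcases hw with hw | hw
          · refine ⟨r, hr, hrv, ?_⟩
            simp [hpos w hw, hw]
          · refine ⟨r, hr, hrv, ?_⟩
            simp [hneg w hw, hw] }
  have hodd : C.IsOdd := by
    change Odd (Finset.univ.filter (fun i : Fin (m + 1) => sg i = false)).card
    rw [Finset.card_filter, Fin.sum_univ_castSucc]
    have h1 : (∑ i : Fin m, if sg (Fin.castSucc i : Fin (m + 1)) = false then 1 else 0) =
        ∑ i ∈ Finset.range m, (if (q i ∈ x ↔ q (i + 1) ∈ x) then 0 else 1) := by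
      rw [Finset.sum_range]
      apply Finset.sum_congr rfl
      intro i _
      simp only [Fin.val_castSucc, sg, i.isLt, if_true]
      by_cases h : (q i ∈ x ↔ q (i + 1) ∈ x) <;> simp [h]
    rw [h1]
    have h2 := parity (fun i => q i ∈ x) m
    simp only [q0, qm, hvx, false_iff] at h2
    have h3 : sg ((Fin.last m : Fin (m + 1)) : ℕ) = decide (w ∈ x) := by
      simp [sg]
    rw [h3, Nat.odd_iff, Nat.add_mod, h2]
    by_cases h : w ∈ x <;> simp [h]
  obtain ⟨u, ⟨j, hj⟩, v₁, ⟨k₁, hk₁⟩, v₂, ⟨k₂, hk₂⟩, hne, ⟨r₁, hr₁, hh₁, ha₁⟩, hn₁,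
    ⟨r₂, hr₂, hh₂, ha₂⟩, hn₂⟩ := hC C hodd
  change Fin (m + 1) at j k₁ k₂
  have hj' : q j = u := hj
  have hk₁' : q k₁ = v₁ := hk₁
  have hk₂' : q k₂ = v₂ := hk₂
  simp only [if_true] at ha₁
  simp only [Bool.false_eq_true, if_false] at ha₂
  have hjm : (j : ℕ) ≤ m := by omega
  -- the final step
  have fin : ∀ (k : Fin (m + 1)) (σ : Bool), q k ≠ v → q k ∉ x → Cert P x (q k) u →
      (σ = true ↔ u ∉ x) → C.HasArc σ u (q k) := by
    intro k σ hkv hkx hcert hσ
    have hkm : (k : ℕ) ≤ m := by omega
    have hH := certH (q k) u (qS k hkm) hkv hkx hcert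
    have h1 : rk u < rk (q k) := hH.2.2.2.1
    rw [← hj'] at h1
    have h2 := qlt j k hjm hkm h1
    have h3 : d (q k) ≤ d u + 1 := by
      obtain ⟨mu, hmu⟩ := reach (rk u) u (by rw [← hj']; exact qS j hjm) rfl
      exact hd1 (q k) _ (Reach.step _ u (q k) (hd2 u mu hmu) hH)
    rw [qd k hkm, ← hj', qd j hjm] at h3
    have h4 : (k : ℕ) = j + 1 := by omega
    have hjlt : (j : ℕ) < m := by omega
    refine ⟨j, ?_, hj, ?_⟩
    · change sg j = σ
      simp only [sg, hjlt, if_true]
      rw [← h4, hj']
      rcases σ with _ | _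
      · simp only [Bool.false_eq_true, false_iff, not_not] at hσ
        simp [hσ, hkx]
      · simp only [true_iff] at hσ
        simp [hσ, hkx]
    · change q ((j + 1 : Fin (m + 1)) : ℕ) = q k
      rw [valsucc j hjlt, h4]
  by_cases hux : u ∈ x
  · -- `v₂` is false
    have hv2 : q k₂ ≠ v := by
      intro h
      have : r₂ = r := hU r₂ hr₂ r hr (by rw [hh₂, hrv, ← hk₂', h])
      subst this
      exact hneg u ha₂ hux
    have hv2x : q k₂ ∉ x := by
      intro h
      obtain ⟨r', hr', hh', hp', hn'⟩ := (hx (q k₂) (qS k₂ (by omega)) hv2).1 h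
      have : r₂ = r' := hU r₂ hr₂ r' hr' (by rw [hh₂, hh', hk₂'])
      subst this
      exact hn' u ha₂ hux
    apply hn₂
    rw [← hk₂']
    exact fin k₂ false hv2 hv2x ⟨r₂, hr₂, by rw [hh₂, hk₂'], Or.inr ⟨ha₂, hux⟩⟩ (by simp [hux])
  · have hv1 : q k₁ ≠ v := by
      intro h
      have : r₁ = r := hU r₁ hr₁ r hr (by rw [hh₁, hrv, ← hk₁', h])
      subst this
      exact hux (hpos u ha₁)
    have hv1x : q k₁ ∉ x := by
      intro h
      obtain ⟨r', hr', hh', hp', hn'⟩ := (hx (q k₁) (qS k₁ (by omega)) hv1).1 h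
      have : r₁ = r' := hU r₁ hr₁ r' hr' (by rw [hh₁, hh', hk₁'])
      subst this
      exact hux (hp' u ha₁)
    apply hn₁
    rw [← hk₁']
    exact fin k₁ true hv1 hv1x ⟨r₁, hr₁, by rw [hh₁, hk₁'], Or.inl ⟨ha₁, hux⟩⟩ (by simp [hux])

/-- Fixed points relative to frozen atoms. -/
theorem frozen [Fintype A] (P : Finset (Rule A)) (hU : UniRule P)
    (hC : ∀ C : Cycle P, C.IsOdd → C.HasInternalTriple) :
    ∀ (n : ℕ) (S : Finset A) (a : Set A), Fintype.card A - S.card = n →
      ∃ x : Set A, (∀ s ∈ S, (s ∈ x ↔ s ∈ a)) ∧ ∀ w, w ∉ S → (w ∈ x ↔ Supp P x w) := by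
  classical
  intro n
  induction n using Nat.strong_induction_on with
  | _ n ih =>
    intro S a hn
    by_cases hS : ∃ v, v ∉ S
    swap
    · push Not at hS
      exact ⟨a, fun s _ => Iff.rfl, fun w hw => absurd (hS w) hw⟩
    obtain ⟨v, hv⟩ := hS
    have hcard : ∀ T : Finset A, S ⊂ T → Fintype.card A - T.card < n := by
      intro T hT
      have h1 := Finset.card_lt_card hT
      have h2 := Finset.card_le_univ T
      omega
    have hins : S ⊂ insert v S := Finset.ssubset_insert hv
    obtain ⟨x, hx1, hx2⟩ := ih _ (hcard _ hins) (insert v S) (a \ {v}) rfl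
    have hvx : v ∉ x := by
      rw [hx1 v (Finset.mem_insert_self v S)]
      simp
    have hxS : ∀ s ∈ S, (s ∈ x ↔ s ∈ a) := by
      intro s hs
      rw [hx1 s (Finset.mem_insert_of_mem hs)]
      have : s ≠ v := fun h => hv (h ▸ hs)
      simp [this]
    have hx : ∀ w, w ∉ S → w ≠ v → (w ∈ x ↔ Supp P x w) := by
      intro w hw hwv
      exact hx2 w (by simp [hw, hwv])
    by_cases hsup : Supp P x v
    swap
    · refine ⟨x, hxS, ?_⟩
      intro w hw
      by_cases hwv : w = v
      · subst hwv
        exact ⟨fun h => absurd h hvx, fun h => absurd h hsup⟩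
      · exact hx w hw hwv
    by_cases hT : ∃ t, t ∉ S ∧ ∀ n, ¬ Stage P x S v n t
    · -- a nonempty trap space
      let T : Finset A := Finset.univ.filter (fun t => t ∉ S ∧ ∀ n, ¬ Stage P x S v n t)
      have hTm : ∀ t, t ∈ T ↔ t ∉ S ∧ ∀ n, ¬ Stage P x S v n t := by
        intro t; simp [T]
      obtain ⟨t0, ht0⟩ := hT
      have hss : S ⊂ S ∪ T := by
        rw [Finset.ssubset_iff]
        refine ⟨t0, ht0.1, ?_⟩
        intro s hs
        rcases Finset.mem_insert.1 hs with h | h
        · subst h
          exact Finset.mem_union_right _ ((hTm _).2 ht0)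
        · exact Finset.mem_union_left _ h
      obtain ⟨y, hy1, hy2⟩ := ih _ (hcard _ hss) (S ∪ T) x rfl
      refine ⟨y, ?_, ?_⟩
      · intro s hs
        rw [hy1 s (Finset.mem_union_left _ hs), hxS s hs]
      · intro w hw
        by_cases hwT : w ∈ T
        swap
        · exact hy2 w (by simp [hw, hwT])
        have hwT' := (hTm w).1 hwT
        have hwv : w ≠ v := by
          intro h
          subst h
          exact hwT'.2 0 (Stage.base 0)
        rw [hy1 w (Finset.mem_union_right _ hwT)]
        by_cases hwx : w ∈ x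
        · refine ⟨fun _ => ?_, fun _ => hwx⟩
          obtain ⟨r, hr, hh, hp, hne⟩ := (hx w hw hwv).1 hwx
          have key : ∀ c, (c ∈ r.pos ∨ c ∈ r.neg) → c ∈ S ∪ T := by
            intro c hc
            by_cases hcS : c ∈ S
            · exact Finset.mem_union_left _ hcS
            · refine Finset.mem_union_right _ ((hTm c).2 ⟨hcS, ?_⟩)
              intro n hst
              exact hwT'.2 (n + 1) (Stage.one n w c r hwx hw hr hh hc hst)
          refine ⟨r, hr, hh, ?_, ?_⟩
          · intro c hc
            rw [hy1 c (key c (Or.inl hc))]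
            exact hp c hc
          · intro c hc
            rw [hy1 c (key c (Or.inr hc))]
            exact hne c hc
        · refine ⟨fun h => absurd h hwx, ?_⟩
          rintro ⟨r, hr, hh, hp, hne⟩
          exfalso
          have hcert : ∃ c, Cert P x w c ∧ ∀ n, ¬ Stage P x S v n c := by
            by_contra hcon
            push Not at hcon
            choose! g hg using hcon
            let N := Finset.univ.sup g
            apply hwT'.2 (N + 1)
            refine Stage.zero N w r hwx hw hr hh ?_
            intro c hc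
            exact (hg c hc).mono N (Finset.le_sup (Finset.mem_univ c))
          obtain ⟨c, ⟨r', hr', hh', hc⟩, hcn⟩ := hcert
          have : r' = r := hU r' hr' r hr (by rw [hh, hh'])
          subst this
          have hcST : c ∈ S ∪ T := by
            by_cases hcS : c ∈ S
            · exact Finset.mem_union_left _ hcS
            · exact Finset.mem_union_right _ ((hTm c).2 ⟨hcS, hcn⟩)
          rcases hc with ⟨h1, h2⟩ | ⟨h1, h2⟩
          · exact h2 ((hy1 c hcST).1 (hp c h1))
          · exact hne c h1 ((hy1 c hcST).2 h2)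
    · push Not at hT
      obtain ⟨r, hr, hh, hp, hne⟩ := hsup
      by_cases hin : ∃ w, (w ∈ r.pos ∨ w ∈ r.neg) ∧ w ∉ S
      · obtain ⟨w, hw, hwS⟩ := hin
        exact absurd (no_cycle P hU hC S x v hv hvx hx hT r hr hh hp hne w hw hwS) id
      · push Not at hin
        obtain ⟨y, hy1, hy2⟩ := ih _ (hcard _ hins) (insert v S) (insert v a) rfl
        have hyS : ∀ s ∈ S, (s ∈ y ↔ s ∈ a) := by
          intro s hs
          rw [hy1 s (Finset.mem_insert_of_mem hs)]
          have : s ≠ v := fun h => hv (h ▸ hs)
          simp [this]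
        refine ⟨y, hyS, ?_⟩
        intro w hw
        by_cases hwv : w = v
        swap
        · exact hy2 w (by simp [hw, hwv])
        subst hwv
        refine ⟨fun _ => ⟨r, hr, hh, ?_, ?_⟩, fun _ => ?_⟩
        · intro c hc
          have hcS := hin c (Or.inl hc)
          rw [hyS c hcS, ← hxS c hcS]
          exact hp c hc
        · intro c hc
          have hcS := hin c (Or.inr hc)
          rw [hyS c hcS, ← hxS c hcS]
          exact hne c hc
        · rw [hy1 w (Finset.mem_insert_self w S)]
          simp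

/-- Atoms which can be derived when the negative literals are ignored. -/
inductive Founded (P : Finset (Rule A)) : A → Prop
  | mk (r : Rule A) (hr : r ∈ P) (h : ∀ a ∈ r.pos, Founded P a) : Founded P r.head

/-- **Existence of stable models.** Let `P` be a finite ground normal program over a finite set of
atoms such that every atom is the head of at most one rule. If every odd cycle of the atom
dependency graph of `P` has an internal delocalizing triple, then `P` has a stable model. -/
theorem result (A : Type) [Fintype A] (P : Finset (Rule A)) (hU : UniRule P)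
    (hC : ∀ C : Cycle P, C.IsOdd → C.HasInternalTriple) : ∃ M : Set A, Stable P M := by
  classical
  let P' : Finset (Rule A) := P.filter (fun r => Founded P r.head)
  have hP' : ∀ r, r ∈ P' ↔ r ∈ P ∧ Founded P r.head := by intro r; simp [P']
  have hU' : UniRule P' := fun r hr s hs h => hU r ((hP' r).1 hr).1 s ((hP' s).1 hs).1 h
  have harc : ∀ σ u v, Arc P' σ u v → Arc P σ u v := by
    rintro σ u v ⟨r, hr, hh, hu⟩
    exact ⟨r, ((hP' r).1 hr).1, hh, hu⟩
  have hC' : ∀ C : Cycle P', C.IsOdd → C.HasInternalTriple := by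
    intro C hodd
    let D : Cycle P := ⟨C.n, C.vert, C.sign, C.inj, fun i => harc _ _ _ (C.arc i)⟩
    have hlift : ∀ σ u, ∀ v ∈ Set.range C.vert, Arc P σ u v → Arc P' σ u v := by
      rintro σ u v ⟨i, rfl⟩ ⟨r, hr, hh, hu⟩
      have hpred : ∃ j, C.vert (j + 1) = C.vert i := ⟨i - 1, by rw [sub_add_cancel]⟩
      obtain ⟨j, hj⟩ := hpred
      obtain ⟨s, hs, hsh, _⟩ := C.arc j
      have : r = s := hU r hr s ((hP' s).1 hs).1 (by rw [hh, hsh, hj])
      subst this
      exact ⟨r, hs, hh, hu⟩
    obtain ⟨u, hu, v₁, hv₁, v₂, hv₂, hne, h1, h2, h3, h4⟩ := hC D hodd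
    exact ⟨u, hu, v₁, hv₁, v₂, hv₂, hne, hlift _ _ _ hv₁ h1, h2, hlift _ _ _ hv₂ h3, h4⟩
  obtain ⟨M, _, hM⟩ := frozen P' hU' hC' _ ∅ ∅ rfl
  have hM' : ∀ w, (w ∈ M ↔ Supp P' M w) := fun w => hM w (by simp)
  refine ⟨M, ?_, ?_⟩
  · intro r hr hneg hpos
    have hf : ∀ a ∈ r.pos, Founded P a := by
      intro a ha
      obtain ⟨s, hs, hh, _⟩ := (hM' a).1 (hpos a ha)
      rw [← hh]
      exact ((hP' s).1 hs).2
    exact (hM' r.head).2 ⟨r, (hP' r).2 ⟨hr, Founded.mk r hr hf⟩, rfl, hpos, hneg⟩
  · intro N hN
    have key : ∀ w, Founded P w → w ∈ M → w ∈ N := by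
      intro w hw
      induction hw with
      | mk r hr h ih =>
        intro hm
        obtain ⟨s, hs, hh, hp, hn⟩ := (hM' r.head).1 hm
        have : s = r := hU s ((hP' s).1 hs).1 r hr hh
        subst this
        exact hN s hr hn (fun a ha => ih a ha (hp a ha))
    intro w hw
    obtain ⟨s, hs, hh, _⟩ := (hM' w).1 hw
    exact key w (hh ▸ ((hP' s).1 hs).2) hw

end Pool.Agent.Results.MP_d24a2a_lc.StableUniRule
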